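import Pool.Agent.R864.CSH.Stm

/-!
Piece F of the project on MP_5bcb58_co: comparison of alternating functions on lists with
functions on `S_n`.
-/

namespace Pool.Agent.R379.CSH

open Finset Pool.Agent.R864.CSH

variable {n : ℕ}

theorem alt_shift {f : LF n} (hf : Alt f) (x : Fin n) : Alt (fun t => f (x :: t)) := by
  intro p a b r
  exact hf (x :: p) a b r

theorem alt_transp {f : LF n} (hf : Alt f) : ∀ (q p : List (Fin n)) (a b : Fin n)
    (r : List (Fin n)), f (p ++ a :: (q ++ b :: r)) = - f (p ++ b :: (q ++ a :: r)) := by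
  intro q
  induction q with
  | nil => intro p a b r; exact hf p a b r
  | cons c q ih =>
    intro p a b r
    have h1 := hf p a c (q ++ b :: r)
    have h2 := ih (p ++ [c]) a b r
    have h3 := hf p c b (q ++ a :: r)
    simp only [List.append_assoc, List.cons_append, List.nil_append] at h1 h2 h3 ⊢
    rw [h1, h2, h3]; ring

theorem alt_not_nodup : ∀ (l : List (Fin n)) (f : LF n), Alt f → ¬ l.Nodup → f l = 0 := by
  intro l
  induction l with
  | nil => intro f _ h; exact absurd List.nodup_nil h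
  | cons x t ih =>
    intro f hf h
    by_cases ht : t.Nodup
    · have hx : x ∈ t := by
        by_contra hx
        exact h (List.nodup_cons.2 ⟨hx, ht⟩)
      obtain ⟨q, r, rfl⟩ := List.append_of_mem hx
      have := alt_transp hf q [] x x r
      simp only [List.nil_append] at this
      omega
    · exact ih (fun t => f (x :: t)) (alt_shift hf x) ht

/-- `f` is constant on the edges of `F` in the first variable. -/
def Cst (F : Finset (Pr n)) (f : LF n) : Prop :=
  ∀ e ∈ F, ∀ l, f ((ofLex e).1 :: l) = f ((ofLex e).2 :: l)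

theorem cst_shift {F : Finset (Pr n)} {f : LF n} (hf : Alt f) (hc : Cst F f) (x : Fin n) :
    Cst F (fun t => f (x :: t)) := by
  intro e he l
  have h1 := hf [] x (ofLex e).1 l
  have h2 := hf [] x (ofLex e).2 l
  simp only [List.nil_append] at h1 h2
  show f (x :: (ofLex e).1 :: l) = f (x :: (ofLex e).2 :: l)
  rw [h1, h2, hc e he]

theorem cst_reach {F : Finset (Pr n)} {f : LF n} (hc : Cst F f) {x y : Fin n}
    (h : (graphOf F).Reachable x y) (l : List (Fin n)) : f (x :: l) = f (y :: l) := by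
  rw [SimpleGraph.reachable_iff_reflTransGen] at h
  induction h with
  | refl => rfl
  | tail h1 h2 ih =>
    rw [ih]
    unfold graphOf at h2
    rw [SimpleGraph.fromRel_adj] at h2
    rcases h2.2 with h3 | h3
    · have := hc _ h3 l; simpa using this
    · have := hc _ h3 l; simpa using this.symm

theorem inv_map {F : Finset (Pr n)} : ∀ (l : List (Fin n)) (f : LF n), Alt f → Cst F f →
    ∀ s ∈ stab F, f (l.map s) = f l := by
  intro l
  induction l with
  | nil => intros; rfl
  | cons x t ih =>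
    intro f hf hc s hs
    rw [List.map_cons]
    have h1 : f (x :: t.map s) = f (s x :: t.map s) := cst_reach hc (hs x) _
    rw [← h1]
    exact ih (fun t => f (x :: t)) (alt_shift hf x) (cst_shift hf hc x) s hs

/-- The base list. -/
def L0 (n j : ℕ) : List (Fin n) := (List.finRange n).take j

theorem L0_nodup (n j : ℕ) : (L0 n j).Nodup := (List.nodup_finRange n).take

theorem L0_length {n j : ℕ} (h : j ≤ n) : (L0 n j).length = j := by
  simp [L0, h]

/-- The map from functions on lists to functions on permutations. -/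
def Phi (n j : ℕ) : LF n →+ (Equiv.Perm (Fin n) → ℤ) where
  toFun f g := f ((L0 n j).map ⇑g⁻¹)
  map_zero' := rfl
  map_add' _ _ := rfl

/-- Permutations of the members of the base list. -/
abbrev HH (n j : ℕ) := Equiv.Perm {x : Fin n // x ∈ L0 n j}

/-- Antisymmetrization. -/
def walt (n j : ℕ) (w : Equiv.Perm (Fin n) → ℤ) (g : Equiv.Perm (Fin n)) : ℤ :=
  ∑ σ : HH n j, ((Equiv.Perm.sign σ : ℤˣ) : ℤ) * w (Equiv.Perm.ofSubtype σ * g)

/-- The map from functions on permutations to functions on lists. -/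
def Psi (n j : ℕ) : (Equiv.Perm (Fin n) → ℤ) →+ LF n where
  toFun w l := ∑ g : Equiv.Perm (Fin n), if (L0 n j).map ⇑g⁻¹ = l then walt n j w g else 0
  map_zero' := by
    funext l
    simp [walt]
  map_add' a b := by
    funext l
    simp only [Pi.add_apply]
    rw [← Finset.sum_add_distrib]
    refine Finset.sum_congr rfl fun g _ => ?_
    split_ifs with h
    · simp only [walt, Pi.add_apply, mul_add, Finset.sum_add_distrib]
    · simp

theorem Psi_apply (n j : ℕ) (w : Equiv.Perm (Fin n) → ℤ) (l : List (Fin n)) :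
    Psi n j w l = ∑ g : Equiv.Perm (Fin n), if (L0 n j).map ⇑g⁻¹ = l then walt n j w g else 0 :=
  rfl

theorem sign_sq {α : Type*} [DecidableEq α] [Fintype α] (τ : Equiv.Perm α) :
    ((Equiv.Perm.sign τ : ℤˣ) : ℤ) * ((Equiv.Perm.sign τ : ℤˣ) : ℤ) = 1 := by
  rcases Int.units_eq_one_or (Equiv.Perm.sign τ) with h | h <;> rw [h] <;> simp

theorem walt_mul (n j : ℕ) (w : Equiv.Perm (Fin n) → ℤ) (τ : HH n j) (g : Equiv.Perm (Fin n)) :
    walt n j w (Equiv.Perm.ofSubtype τ * g) = ((Equiv.Perm.sign τ : ℤˣ) : ℤ) * walt n j w g := by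
  unfold walt
  rw [Finset.mul_sum]
  refine Fintype.sum_equiv (Equiv.mulRight τ) _ _ fun σ => ?_
  rw [Equiv.coe_mulRight, map_mul, map_mul, Units.val_mul, mul_assoc (Equiv.Perm.ofSubtype σ)]
  calc ((Equiv.Perm.sign σ : ℤˣ) : ℤ) * w (Equiv.Perm.ofSubtype σ * (Equiv.Perm.ofSubtype τ * g))
      = (((Equiv.Perm.sign τ : ℤˣ) : ℤ) * ((Equiv.Perm.sign τ : ℤˣ) : ℤ)) *
        (((Equiv.Perm.sign σ : ℤˣ) : ℤ) *
          w (Equiv.Perm.ofSubtype σ * (Equiv.Perm.ofSubtype τ * g))) := by
        rw [sign_sq, one_mul]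
    _ = _ := by ring

theorem Psi_length {j : ℕ} (hj : j ≤ n) (w : Equiv.Perm (Fin n) → ℤ) (l : List (Fin n))
    (hl : l.length ≠ j) : Psi n j w l = 0 := by
  rw [Psi_apply]
  refine Finset.sum_eq_zero fun g _ => ?_
  rw [if_neg]
  rintro rfl
  exact hl (by rw [List.length_map, L0_length hj])

theorem Psi_not_nodup {j : ℕ} (w : Equiv.Perm (Fin n) → ℤ) (l : List (Fin n))
    (hl : ¬ l.Nodup) : Psi n j w l = 0 := by
  rw [Psi_apply]
  refine Finset.sum_eq_zero fun g _ => ?_
  rw [if_neg]
  rintro rfl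
  exact hl ((L0_nodup n j).map (Equiv.injective _))

theorem map_swap_eq {h : Equiv.Perm (Fin n)} {x y : Fin n} {P : List (Fin n)}
    (hx : x ∉ P) (hy : y ∉ P) : P.map ⇑(h * Equiv.swap x y) = P.map ⇑h := by
  refine List.map_congr_left fun z hz => ?_
  rw [Equiv.Perm.mul_apply, Equiv.swap_apply_of_ne_of_ne]
  · rintro rfl; exact hx hz
  · rintro rfl; exact hy hz

theorem Psi_alt {j : ℕ} (hj : j ≤ n) (w : Equiv.Perm (Fin n) → ℤ) : Alt (Psi n j w) := by
  intro p a b r
  by_cases hlen : (p ++ a :: b :: r).length = j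
  · have hL := L0_length hj
    obtain ⟨P, x, y, R, hPR, hP⟩ : ∃ (P : List (Fin n)) (x y : Fin n) (R : List (Fin n)),
        L0 n j = P ++ x :: y :: R ∧ P.length = p.length := by
      have h1 : L0 n j = (L0 n j).take p.length ++ (L0 n j).drop p.length :=
        (List.take_append_drop _ _).symm
      have h2 : ((L0 n j).drop p.length).length = r.length + 2 := by
        rw [List.length_drop, hL, ← hlen, List.length_append, List.length_cons, List.length_cons]
        omega
      have h3 : ((L0 n j).take p.length).length = p.length := by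
        rw [List.length_take, hL, ← hlen, List.length_append, List.length_cons]
        omega
      generalize (L0 n j).drop p.length = D at h1 h2
      match D, h2 with
      | x :: y :: R, _ => exact ⟨_, x, y, R, h1, h3⟩
    have hnd := L0_nodup n j
    rw [hPR] at hnd
    have hnd' := List.nodup_append.1 hnd
    obtain ⟨hn1, hn2, hn3⟩ := hnd'
    rw [List.nodup_cons, List.nodup_cons] at hn2
    obtain ⟨hx1, hy1, hR⟩ := hn2
    have hxy : x ≠ y := by rintro rfl; exact hx1 (by simp)
    have hxR : x ∉ R := fun h => hx1 (List.mem_cons_of_mem _ h)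
    have hxP : x ∉ P := fun h => hn3 x h x (by simp) rfl
    have hyP : y ∉ P := fun h => hn3 y h y (by simp) rfl
    have hxL : x ∈ L0 n j := by rw [hPR]; simp
    have hyL : y ∈ L0 n j := by rw [hPR]; simp
    let τ : HH n j := Equiv.swap ⟨x, hxL⟩ ⟨y, hyL⟩
    have hτ : Equiv.Perm.ofSubtype τ = Equiv.swap x y := by
      simp only [τ]
      rw [Equiv.Perm.ofSubtype_swap_eq]
    have hsτ : ((Equiv.Perm.sign τ : ℤˣ) : ℤ) = -1 := by
      simp only [τ]
      rw [Equiv.Perm.sign_swap (by simpa using hxy)]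
      simp
    rw [Psi_apply, Psi_apply, ← Finset.sum_neg_distrib]
    refine Fintype.sum_equiv (Equiv.mulLeft (Equiv.Perm.ofSubtype τ)) _ _ fun g => ?_
    rw [Equiv.coe_mulLeft, walt_mul, hsτ, hτ]
    have e1 : (L0 n j).map ⇑(Equiv.swap x y * g)⁻¹ =
        P.map ⇑g⁻¹ ++ g⁻¹ y :: g⁻¹ x :: R.map ⇑g⁻¹ := by
      rw [mul_inv_rev, Equiv.swap_inv, hPR, List.map_append, List.map_cons, List.map_cons,
        map_swap_eq hxP hyP, map_swap_eq hxR hy1, Equiv.Perm.mul_apply, Equiv.Perm.mul_apply,
        Equiv.swap_apply_left, Equiv.swap_apply_right]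
    have e2 : (L0 n j).map ⇑g⁻¹ = P.map ⇑g⁻¹ ++ g⁻¹ x :: g⁻¹ y :: R.map ⇑g⁻¹ := by
      rw [hPR, List.map_append, List.map_cons, List.map_cons]
    rw [e1, e2]
    have hPl : (P.map ⇑g⁻¹).length = p.length := by rw [List.length_map, hP]
    by_cases hc : P.map ⇑g⁻¹ ++ g⁻¹ x :: g⁻¹ y :: R.map ⇑g⁻¹ = p ++ a :: b :: r
    · have h4 := List.append_inj hc hPl
      have h5 := h4.2
      rw [List.cons.injEq, List.cons.injEq] at h5
      rw [if_pos hc, if_pos (by rw [h4.1, h5.1, h5.2.1, h5.2.2])]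
      ring
    · rw [if_neg hc, if_neg]
      · simp
      · intro hc'
        apply hc
        have h4 := List.append_inj hc' hPl
        have h5 := h4.2
        rw [List.cons.injEq, List.cons.injEq] at h5
        rw [h4.1, h5.1, h5.2.1, h5.2.2]
  · rw [Psi_length hj w _ hlen, Psi_length hj w, neg_zero]
    intro h
    apply hlen
    rw [← h]
    simp

theorem walt_inv {j : ℕ} {F : Finset (Pr n)} {w : Equiv.Perm (Fin n) → ℤ} (hw : w ∈ R864.CSH.Inv F)
    (g s : Equiv.Perm (Fin n)) (hs : s ∈ stab F) : walt n j w (g * s) = walt n j w g := by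
  unfold walt
  refine Finset.sum_congr rfl fun σ _ => ?_
  rw [← mul_assoc, hw _ s hs]

theorem Psi_map {j : ℕ} {F : Finset (Pr n)} {w : Equiv.Perm (Fin n) → ℤ} (hw : w ∈ R864.CSH.Inv F)
    (s : Equiv.Perm (Fin n)) (hs : s ∈ stab F) (l : List (Fin n)) :
    Psi n j w (l.map s) = Psi n j w l := by
  rw [Psi_apply, Psi_apply]
  refine Fintype.sum_equiv (Equiv.mulRight s) _ _ fun g => ?_
  rw [Equiv.coe_mulRight, walt_inv hw g s hs]
  have : (L0 n j).map ⇑g⁻¹ = l.map s ↔ (L0 n j).map ⇑(g * s)⁻¹ = l := by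
    have e1 : (L0 n j).map ⇑g⁻¹ = ((L0 n j).map ⇑(g * s)⁻¹).map s := by
      rw [List.map_map]
      refine List.map_congr_left fun z _ => ?_
      simp
    rw [e1]
    exact (List.map_injective_iff.2 s.injective).eq_iff
  simp only [this]

theorem Psi_cst {j : ℕ} (hj : j ≤ n) {F : Finset (Pr n)} {w : Equiv.Perm (Fin n) → ℤ}
    (hw : w ∈ R864.CSH.Inv F) : Cst F (Psi n j w) := by
  intro e he l
  obtain ⟨x, hx⟩ : ∃ x, x = (ofLex e).1 := ⟨_, rfl⟩
  obtain ⟨y, hy⟩ : ∃ y, y = (ofLex e).2 := ⟨_, rfl⟩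
  rw [← hx, ← hy]
  by_cases hxy : x = y
  · rw [hxy]
  have hadj : (graphOf F).Adj x y := by
    unfold graphOf
    rw [SimpleGraph.fromRel_adj]
    refine ⟨hxy, Or.inl ?_⟩
    have : toLex (x, y) = e := by rw [hx, hy]; rfl
    rw [this]; exact he
  have hs : Equiv.swap x y ∈ stab F := by
    intro v
    by_cases h1 : v = x
    · rw [h1, Equiv.swap_apply_left]; exact hadj.reachable
    by_cases h2 : v = y
    · rw [h2, Equiv.swap_apply_right]; exact hadj.reachable.symm
    rw [Equiv.swap_apply_of_ne_of_ne h1 h2]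
  have hA := Psi_alt hj w
  -- a list without x and y is fixed by the swap
  have hfix : ∀ q : List (Fin n), x ∉ q → y ∉ q → q.map (Equiv.swap x y) = q := by
    intro q h1 h2
    have := map_swap_eq (h := 1) h1 h2
    simpa using this
  by_cases hxl : x ∈ l
  · rw [Psi_not_nodup w (x :: l) (fun h => (List.nodup_cons.1 h).1 hxl)]
    by_cases hyl : y ∈ l
    · rw [Psi_not_nodup w (y :: l) (fun h => (List.nodup_cons.1 h).1 hyl)]
    by_cases hnd : l.Nodup
    · obtain ⟨q, r, rfl⟩ := List.append_of_mem hxl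
      have hq : x ∉ q ∧ x ∉ r := by
        rw [List.nodup_append] at hnd
        exact ⟨fun h => hnd.2.2 x h x (by simp) rfl, (List.nodup_cons.1 hnd.2.1).1⟩
      have hq' : y ∉ q ∧ y ∉ r := by
        constructor
        · intro h; exact hyl (by simp [h])
        · intro h; exact hyl (by simp [h])
      have h1 := Psi_map (j := j) hw _ hs (y :: (q ++ x :: r))
      rw [List.map_cons, List.map_append, List.map_cons, hfix q hq.1 hq'.1, hfix r hq.2 hq'.2,
        Equiv.swap_apply_left, Equiv.swap_apply_right] at h1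
      have h2 := alt_transp hA q [] x y r
      simp only [List.nil_append] at h2
      omega
    · rw [Psi_not_nodup w (y :: l) (fun h => hnd (List.nodup_cons.1 h).2)]
  · by_cases hyl : y ∈ l
    · rw [Psi_not_nodup w (y :: l) (fun h => (List.nodup_cons.1 h).1 hyl)]
      by_cases hnd : l.Nodup
      · obtain ⟨q, r, rfl⟩ := List.append_of_mem hyl
        have hq : y ∉ q ∧ y ∉ r := by
          rw [List.nodup_append] at hnd
          exact ⟨fun h => hnd.2.2 y h y (by simp) rfl, (List.nodup_cons.1 hnd.2.1).1⟩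
        have hq' : x ∉ q ∧ x ∉ r := by
          constructor
          · intro h; exact hxl (by simp [h])
          · intro h; exact hxl (by simp [h])
        have h1 := Psi_map (j := j) hw _ hs (x :: (q ++ y :: r))
        rw [List.map_cons, List.map_append, List.map_cons, hfix q hq'.1 hq.1, hfix r hq'.2 hq.2,
          Equiv.swap_apply_left, Equiv.swap_apply_right] at h1
        have h2 := alt_transp hA q [] x y r
        simp only [List.nil_append] at h2
        omega
      · rw [Psi_not_nodup w (x :: l) (fun h => hnd (List.nodup_cons.1 h).2)]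
    · have h1 := Psi_map (j := j) hw _ hs (x :: l)
      rw [List.map_cons, hfix l hxl hyl, Equiv.swap_apply_left] at h1
      exact h1.symm

theorem alt_swap_map {f : LF n} (hf : Alt f) {L : List (Fin n)} (hL : L.Nodup)
    (h : Equiv.Perm (Fin n)) {x y : Fin n} (p q r : List (Fin n))
    (hd : L = p ++ x :: (q ++ y :: r)) :
    f (L.map ⇑(h * Equiv.swap x y)) = - f (L.map ⇑h) := by
  have hnd := hL
  rw [hd, List.nodup_append, List.nodup_cons, List.nodup_append, List.nodup_cons] at hnd
  obtain ⟨hp, ⟨hx, hq, ⟨hyr, hr⟩, hqy⟩, hpx⟩ := hnd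
  have hxp : x ∉ p := fun h => hpx x h x (by simp) rfl
  have hyp : y ∉ p := fun h => hpx y h y (by simp) rfl
  have hxq : x ∉ q := fun h => hx (by simp [h])
  have hxr : x ∉ r := fun h => hx (by simp [h])
  have hyq : y ∉ q := fun h => hqy y h y (by simp) rfl
  rw [hd]
  simp only [List.map_append, List.map_cons]
  rw [map_swap_eq hxp hyp, map_swap_eq hxq hyq, map_swap_eq hxr hyr, Equiv.Perm.mul_apply,
    Equiv.Perm.mul_apply, Equiv.swap_apply_left, Equiv.swap_apply_right]
  exact alt_transp hf _ _ _ _ _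

theorem alt_swap {f : LF n} (hf : Alt f) {L : List (Fin n)} (hL : L.Nodup)
    (h : Equiv.Perm (Fin n)) {x y : Fin n} (hxy : x ≠ y) (hx : x ∈ L) (hy : y ∈ L) :
    f (L.map ⇑(h * Equiv.swap x y)) = - f (L.map ⇑h) := by
  obtain ⟨s, t, rfl⟩ := List.append_of_mem hx
  rw [List.mem_append, List.mem_cons] at hy
  rcases hy with hy | hy | hy
  · obtain ⟨p, q, rfl⟩ := List.append_of_mem hy
    rw [Equiv.swap_comm]
    exact alt_swap_map hf hL h p q t (by simp)
  · exact absurd hy.symm hxy
  · obtain ⟨q, r, rfl⟩ := List.append_of_mem hy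
    exact alt_swap_map hf hL h s q r (by simp)

theorem alt_sign {j : ℕ} {f : LF n} (hf : Alt f) (σ : HH n j) :
    ∀ h : Equiv.Perm (Fin n), f ((L0 n j).map ⇑(h * Equiv.Perm.ofSubtype σ)) =
      ((Equiv.Perm.sign σ : ℤˣ) : ℤ) * f ((L0 n j).map ⇑h) := by
  induction σ using Equiv.Perm.swap_induction_on with
  | one => intro h; simp
  | swap_mul σ x y hxy ih =>
    intro h
    rw [map_mul, Equiv.Perm.ofSubtype_swap_eq, ← mul_assoc, ih, map_mul,
      Equiv.Perm.sign_swap hxy, alt_swap hf (L0_nodup n j) h (fun e => hxy (Subtype.ext e)) x.2 y.2]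
    simp

theorem walt_Phi {j : ℕ} {f : LF n} (hf : Alt f) (g : Equiv.Perm (Fin n)) :
    walt n j (Phi n j f) g = (Fintype.card (HH n j) : ℤ) * f ((L0 n j).map ⇑g⁻¹) := by
  unfold walt
  have : ∀ σ : HH n j, ((Equiv.Perm.sign σ : ℤˣ) : ℤ) *
      Phi n j f (Equiv.Perm.ofSubtype σ * g) = f ((L0 n j).map ⇑g⁻¹) := by
    intro σ
    show ((Equiv.Perm.sign σ : ℤˣ) : ℤ) * f ((L0 n j).map ⇑(Equiv.Perm.ofSubtype σ * g)⁻¹) = _
    rw [mul_inv_rev, ← map_inv, alt_sign hf, Equiv.Perm.sign_inv, ← mul_assoc, sign_sq, one_mul]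
  rw [Finset.sum_congr rfl (fun σ _ => this σ)]
  simp

/-- The number of permutations that take the base list to `l`. -/
def NN (n j : ℕ) (l : List (Fin n)) : ℕ :=
  (Finset.univ.filter (fun g : Equiv.Perm (Fin n) => (L0 n j).map ⇑g⁻¹ = l)).card

theorem NN_eq {j : ℕ} (h : Equiv.Perm (Fin n)) : NN n j ((L0 n j).map h) = NN n j (L0 n j) := by
  unfold NN
  refine Finset.card_equiv (Equiv.mulRight h) fun g => ?_
  rw [Finset.mem_filter, Finset.mem_filter, Equiv.coe_mulRight]
  simp only [Finset.mem_univ, true_and]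
  have e1 : (L0 n j).map ⇑g⁻¹ = ((L0 n j).map ⇑(g * h)⁻¹).map h := by
    rw [List.map_map]
    refine List.map_congr_left fun z _ => ?_
    simp
  rw [e1]
  exact (List.map_injective_iff.2 h.injective).eq_iff

theorem NN_pos {j : ℕ} : 0 < NN n j (L0 n j) := by
  unfold NN
  rw [Finset.card_pos]
  refine ⟨1, ?_⟩
  rw [Finset.mem_filter]
  refine ⟨Finset.mem_univ _, ?_⟩
  rw [inv_one]
  exact List.map_id _

theorem exists_perm {L l : List (Fin n)} (hL : L.Nodup) (hl : l.Nodup)
    (hlen : L.length = l.length) : ∃ h : Equiv.Perm (Fin n), L.map h = l := by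
  classical
  let e : {x // x ∈ L} ≃ {x // x ∈ l} :=
    (List.Nodup.getEquiv L hL).symm.trans ((finCongr hlen).trans (List.Nodup.getEquiv l hl))
  refine ⟨e.extendSubtype, ?_⟩
  apply List.ext_getElem
  · rw [List.length_map, hlen]
  · intro i h1 h2
    rw [List.length_map] at h1
    rw [List.getElem_map, Equiv.extendSubtype_apply_of_mem _ _ (List.getElem_mem h1)]
    have e1 : (List.Nodup.getEquiv L hL).symm ⟨L[i], List.getElem_mem h1⟩ = ⟨i, h1⟩ := by
      rw [Equiv.symm_apply_eq]
      rfl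
    simp only [e, Equiv.trans_apply, e1]
    rfl

theorem stF : StF := by
  intro n j hj
  refine ⟨Phi n j, Psi n j, (NN n j (L0 n j) : ℤ) * (Fintype.card (HH n j) : ℤ), ?_, ?_, ?_, ?_⟩
  · have h1 := NN_pos (n := n) (j := j)
    have h2 : 0 < Fintype.card (HH n j) := Fintype.card_pos
    positivity
  · intro F f hf g s hs
    show f ((L0 n j).map ⇑(g * s)⁻¹) = f ((L0 n j).map ⇑g⁻¹)
    have e1 : (L0 n j).map ⇑(g * s)⁻¹ = ((L0 n j).map ⇑g⁻¹).map ⇑s⁻¹ := by
      rw [List.map_map, mul_inv_rev]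
      rfl
    rw [e1]
    exact inv_map _ f hf.1 hf.2.2 _ ((stab F).inv_mem hs)
  · intro F w hw
    exact ⟨Psi_alt hj w, Psi_length hj w, Psi_cst hj hw⟩
  · intro F f hf
    funext l
    rw [Psi_apply, Pi.smul_apply, smul_eq_mul]
    have h1 : ∀ g : Equiv.Perm (Fin n), (if (L0 n j).map ⇑g⁻¹ = l then walt n j (Phi n j f) g else 0)
        = if (L0 n j).map ⇑g⁻¹ = l then (Fintype.card (HH n j) : ℤ) * f l else 0 := by
      intro g
      split_ifs with h
      · rw [walt_Phi hf.1, h]
      · rfl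
    rw [Finset.sum_congr rfl (fun g _ => h1 g), ← Finset.sum_filter, Finset.sum_const,
      nsmul_eq_mul]
    by_cases hl : l.length = j
    · by_cases hnd : l.Nodup
      · obtain ⟨h, rfl⟩ := exists_perm (L0_nodup n j) hnd (by rw [hl, L0_length hj])
        have := NN_eq (j := j) h
        unfold NN at this ⊢
        rw [this]
        ring
      · rw [alt_not_nodup l f hf.1 hnd]; ring
    · rw [hf.2.1 l hl]; ring

end Pool.Agent.R379.CSH
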